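import Pool.Agent.H24.RCN.Targets

/-!
# HB2: divisibility by the order
-/

set_option autoImplicit false

open NumberField Pool.Agent.H24.RCN

namespace Pool.Agent.H60.RCN

open Polynomial in
theorem pol (κ : ℕ) (hκ : κ.Prime) : ∃ R : Polynomial ℤ,
    (X - 1) ^ κ = X ^ κ - 1 + C (κ : ℤ) * ((X - 1) * R) := by
  haveI := Fact.mk hκ
  have h1 : C (κ : ℤ) ∣ (X - 1 : Polynomial ℤ) ^ κ - (X ^ κ - 1) := by
    rw [C_dvd_iff_dvd_coeff]
    intro i
    have h2 : ((X - 1 : Polynomial ℤ) ^ κ - (X ^ κ - 1)).map (Int.castRingHom (ZMod κ)) = 0 := by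
      simp only [Polynomial.map_sub, Polynomial.map_pow, Polynomial.map_X, Polynomial.map_one]
      rw [sub_pow_char, one_pow, sub_self]
    have h3 := congrArg (fun q => Polynomial.coeff q i) h2
    simp only [coeff_map, coeff_zero, eq_intCast] at h3
    exact (ZMod.intCast_zmod_eq_zero_iff_dvd _ κ).1 h3
  obtain ⟨S, hS⟩ := h1
  have h4 : S.IsRoot 1 := by
    have h5 := congrArg (eval 1) hS
    rw [eval_sub, eval_pow, eval_sub, eval_sub, eval_pow, eval_X, eval_one, eval_mul, eval_C,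
      sub_self, one_pow, sub_self, zero_pow hκ.ne_zero, sub_self] at h5
    rcases mul_eq_zero.1 h5.symm with h6 | h6
    · exact absurd (by exact_mod_cast h6) hκ.ne_zero
    · exact h6
  obtain ⟨R, hR⟩ := dvd_iff_isRoot.2 h4
  rw [map_one] at hR
  refine ⟨R, ?_⟩
  rw [← hR, ← hS]
  ring

theorem pf_HB2 : T_HB2 := by
  intro M _ _ _ f κ hκ hf x hx
  obtain ⟨z, rfl⟩ := hx
  obtain ⟨R, hR⟩ := pol κ hκ
  have h1 := congrArg (Polynomial.aeval f) hR
  simp only [map_pow, map_sub, map_add, map_mul, Polynomial.aeval_X, map_one,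
    Polynomial.aeval_C] at h1
  rw [hf, sub_self, zero_add] at h1
  refine ⟨(f - 1) (Polynomial.aeval f R z), ⟨_, rfl⟩, ?_⟩
  have h2 : ((f - 1) ^ (κ - 1)) ((f - 1) z) = ((f - 1) ^ κ) z := by
    rw [← Module.End.mul_apply, pow_sub_one_mul hκ.ne_zero]
  rw [h2, h1, Module.End.mul_apply, Module.End.mul_apply]
  simp

end Pool.Agent.H60.RCN
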