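import Pool.Agent.H24.RCN.Targets

/-!
# MPR: the norm to the real subfield of an ideal which is stable under complex conjugation
-/

set_option autoImplicit false

open NumberField Pool.Agent.H24.RCN

namespace Pool.Agent.H60.RCN

open Classical in
/-- the norm of the quadratic extension -/
theorem norm_cm (F : Type) [Field F] [NumberField F] [IsCMField F] (x : F) :
    algebraMap (maximalRealSubfield F) F (Algebra.norm (maximalRealSubfield F) x) =
      x * IsCMField.complexConj F x := by
  rw [Algebra.norm_eq_prod_automorphisms]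
  have h1 : (Finset.univ : Finset (Gal(F/maximalRealSubfield F))) =
      {1, IsCMField.complexConj F} := by
    symm
    apply Finset.eq_univ_of_card
    rw [Finset.card_pair (IsCMField.complexConj_ne_one F).symm, ← Nat.card_eq_fintype_card,
      IsGalois.card_aut_eq_finrank, Algebra.IsQuadraticExtension.finrank_eq_two]
  rw [h1, Finset.prod_pair (IsCMField.complexConj_ne_one F).symm]
  rfl

theorem intNorm_cm (F : Type) [Field F] [NumberField F] [IsCMField F] (x : 𝓞 F) :
    algebraMap (𝓞 (maximalRealSubfield F)) (𝓞 F)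
      (Algebra.intNorm (𝓞 (maximalRealSubfield F)) (𝓞 F) x) =
      x * IsCMField.ringOfIntegersComplexConj F x := by
  apply RingOfIntegers.ext
  have h1 := Algebra.algebraMap_intNorm (A := 𝓞 (maximalRealSubfield F))
    (K := maximalRealSubfield F) (L := F) (B := 𝓞 F) x
  have h2 := norm_cm F (x : F)
  rw [← h1] at h2
  exact h2

theorem pf_MPR : T_MPR := by
  intro F _ _ _ A hA
  have h1 : Ideal.map (algebraMap (𝓞 (maximalRealSubfield F)) (𝓞 F))
      (Ideal.relNorm (𝓞 (maximalRealSubfield F)) A) ≤ A ^ 2 := by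
    rw [Ideal.map_le_iff_le_comap, Ideal.relNorm_apply, Ideal.span_le]
    rintro _ ⟨x, hx, rfl⟩
    show algebraMap (𝓞 (maximalRealSubfield F)) (𝓞 F)
      (Algebra.intNorm (𝓞 (maximalRealSubfield F)) (𝓞 F) x) ∈ A ^ 2
    rw [intNorm_cm, sq]
    exact Ideal.mul_mem_mul hx (hA x _ rfl hx)
  have h2 : Ideal.absNorm (Ideal.map (algebraMap (𝓞 (maximalRealSubfield F)) (𝓞 F))
      (Ideal.relNorm (𝓞 (maximalRealSubfield F)) A)) = Ideal.absNorm (A ^ 2) := by
    rw [Ideal.absNorm_algebraMap, Ideal.absNorm_relNorm, map_pow]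
    rw [← IsFractionRing.finrank_eq (𝓞 (maximalRealSubfield F)) (maximalRealSubfield F) (𝓞 F) F,
      Algebra.IsQuadraticExtension.finrank_eq_two]
  by_cases hb : A = ⊥
  · subst hb
    rw [Ideal.relNorm_bot, Ideal.map_bot, Ideal.bot_pow two_ne_zero]
  obtain ⟨C, hC⟩ := Ideal.dvd_iff_le.2 h1
  have h3 : Ideal.absNorm (A ^ 2) ≠ 0 := by
    rw [Ne, Ideal.absNorm_eq_zero_iff]
    exact pow_ne_zero 2 hb
  rw [hC, map_mul] at h2
  have h4 : Ideal.absNorm C = 1 := by
    rw [← mul_one (Ideal.absNorm (A ^ 2)), mul_assoc, one_mul] at h2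
    exact Nat.eq_of_mul_eq_mul_left (Nat.pos_of_ne_zero h3) h2
  rw [Ideal.absNorm_eq_one_iff] at h4
  rw [hC, h4, ← Ideal.one_eq_top, mul_one]

end Pool.Agent.H60.RCN
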